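import Mathlib

/-!
# Vertically rigid functions: the group of affine maps preserving the graph
-/

set_option autoImplicit false
open Matrix Set

namespace Pool.Agent.H254.VR

abbrev M2 := Matrix (Fin 2) (Fin 2) ℝ
abbrev V2 := Fin 2 → ℝ

/-- a point of the graph -/
def pt (f : ℝ → ℝ) (x : ℝ) : V2 := ![x, f x]

@[simp] lemma pt0 (f : ℝ → ℝ) (x : ℝ) : pt f x 0 = x := rfl
@[simp] lemma pt1 (f : ℝ → ℝ) (x : ℝ) : pt f x 1 = f x := rfl

/-- the affine map `P ↦ M P + w` is a bijection of the graph of `f` -/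
def Pr (f : ℝ → ℝ) (M : M2) (w : V2) : Prop :=
  M.det ≠ 0 ∧ (∀ x, ∃ x', M *ᵥ pt f x + w = pt f x') ∧ (∀ x', ∃ x, M *ᵥ pt f x + w = pt f x')

/-- linear parts of the affine maps which preserve the graph -/
def L (f : ℝ → ℝ) (M : M2) : Prop := ∃ w, Pr f M w

variable {f : ℝ → ℝ} {M M' : M2} {w w' : V2}

lemma Pr.mul (h : Pr f M w) (h' : Pr f M' w') : Pr f (M * M') (M *ᵥ w' + w) := by
  have e : ∀ v : V2, (M * M') *ᵥ v + (M *ᵥ w' + w) = M *ᵥ (M' *ᵥ v + w') + w := fun v => by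
    rw [Matrix.mulVec_add, Matrix.mulVec_mulVec, add_assoc]
  refine ⟨by rw [det_mul]; exact mul_ne_zero h.1 h'.1, fun x => ?_, fun x' => ?_⟩
  · obtain ⟨y, hy⟩ := h'.2.1 x
    obtain ⟨z, hz⟩ := h.2.1 y
    exact ⟨z, by rw [e, hy, hz]⟩
  · obtain ⟨y, hy⟩ := h.2.2 x'
    obtain ⟨z, hz⟩ := h'.2.2 y
    exact ⟨z, by rw [e, hz, hy]⟩

lemma Pr.inv (h : Pr f M w) : Pr f M⁻¹ (-(M⁻¹ *ᵥ w)) := by
  have hd : IsUnit M.det := isUnit_iff_ne_zero.2 h.1
  have e : ∀ v : V2, M⁻¹ *ᵥ (M *ᵥ v + w) + -(M⁻¹ *ᵥ w) = v := fun v => by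
    rw [Matrix.mulVec_add, Matrix.mulVec_mulVec, nonsing_inv_mul _ hd, one_mulVec]; abel
  refine ⟨(isUnit_nonsing_inv_det _ hd).ne_zero, fun x => ?_, fun x' => ?_⟩
  · obtain ⟨y, hy⟩ := h.2.2 x
    exact ⟨y, by rw [← hy, e]⟩
  · obtain ⟨y, hy⟩ := h.2.1 x'
    exact ⟨y, by rw [← hy, e]⟩

lemma Pr.one : Pr f 1 0 := ⟨by simp, fun x => ⟨x, by simp⟩, fun x => ⟨x, by simp⟩⟩

lemma L.mul (h : L f M) (h' : L f M') : L f (M * M') := by
  obtain ⟨w, h⟩ := h; obtain ⟨w', h'⟩ := h'; exact ⟨_, h.mul h'⟩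

lemma L.inv (h : L f M) : L f M⁻¹ := by
  obtain ⟨w, h⟩ := h; exact ⟨_, h.inv⟩

lemma L.one : L f 1 := ⟨0, Pr.one⟩

lemma L.det (h : L f M) : M.det ≠ 0 := h.choose_spec.1

/-- chords of the graph -/
def Ch (f : ℝ → ℝ) (d : V2) : Prop := ∃ x y, x ≠ y ∧ d = pt f x - pt f y

lemma Ch.ne {d : V2} (h : Ch f d) : d 0 ≠ 0 := by
  obtain ⟨x, y, h, rfl⟩ := h
  simpa using sub_ne_zero.2 h

lemma mulVec_inj (h : M.det ≠ 0) {v : V2} (hv : M *ᵥ v = 0) : v = 0 := by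
  have := congrArg (fun z => M⁻¹ *ᵥ z) hv
  simp only [Matrix.mulVec_mulVec, nonsing_inv_mul _ (isUnit_iff_ne_zero.2 h), one_mulVec,
    mulVec_zero] at this
  exact this

lemma Ch.map {d : V2} (h : Ch f d) (hM : L f M) : Ch f (M *ᵥ d) := by
  obtain ⟨x, y, hxy, rfl⟩ := h
  obtain ⟨w, hM⟩ := hM
  obtain ⟨x', hx⟩ := hM.2.1 x
  obtain ⟨y', hy⟩ := hM.2.1 y
  have e : M *ᵥ (pt f x - pt f y) = pt f x' - pt f y' := by
    rw [← hx, ← hy, Matrix.mulVec_sub]; abel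
  refine ⟨x', y', ?_, e⟩
  rintro rfl
  rw [sub_self] at e
  have := congrFun (mulVec_inj hM.1 e) 0
  simp at this
  exact hxy (sub_eq_zero.1 this)

lemma Pr.trans (h : Pr f M w) (h' : Pr f M w') : Pr f 1 (w' - w) := by
  refine ⟨by simp, fun x => ?_, fun x' => ?_⟩
  · obtain ⟨z, hz⟩ := h.2.2 x
    obtain ⟨y, hy⟩ := h'.2.1 z
    exact ⟨y, by rw [one_mulVec, ← hz, ← hy]; abel⟩
  · obtain ⟨z, hz⟩ := h'.2.2 x'
    obtain ⟨y, hy⟩ := h.2.1 z
    exact ⟨y, by rw [one_mulVec, ← hz, ← hy]; abel⟩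

/-- the translations form a group invariant under the linear parts -/
lemma Pr.conj (hM : L f M) (h : Pr f 1 w) : Pr f 1 (M *ᵥ w) := by
  obtain ⟨u, hM⟩ := hM
  have h1 := hM.mul h
  rw [mul_one] at h1
  have := hM.trans h1
  rwa [add_sub_cancel_right] at this

lemma Pr.add (h : Pr f 1 w) (h' : Pr f 1 w') : Pr f 1 (w + w') := by
  have := h.mul h'
  rw [one_mul, one_mulVec, add_comm] at this
  exact this

lemma Pr.neg (h : Pr f 1 w) : Pr f 1 (-w) := by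
  have := h.inv
  rw [inv_one, one_mulVec] at this
  exact this

lemma Pr.diag {κ : ℝ} (h : Pr f !![1, 0; 0, κ] w) (x : ℝ) : f (x + w 0) = κ * f x + w 1 := by
  obtain ⟨x', hx⟩ := h.2.1 x
  have h0 := congrFun hx 0
  have h1 := congrFun hx 1
  simp [Matrix.mulVec, dotProduct, Fin.sum_univ_two] at h0 h1
  rw [h0, ← h1]

lemma Pr.tr (h : Pr f 1 w) (x : ℝ) : f (x + w 0) = f x + w 1 := by
  have : (1 : M2) = !![1, 0; 0, 1] := by
    ext i j; fin_cases i <;> fin_cases j <;> rfl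
  rw [this] at h
  simpa using h.diag x

lemma Pr.tr_ext (h : Pr f 1 w) (h' : Pr f 1 w') (e : w 0 = w' 0) : w = w' := by
  have h1 := h.tr 0
  have h2 := h'.tr 0
  rw [e] at h1
  ext i; fin_cases i
  · exact e
  · simp; linarith

/-- the diagonal matrix -/
def D (c : ℝ) : M2 := !![1, 0; 0, c]

/-- vertically rigid, in terms of linear parts -/
def Rig (f : ℝ → ℝ) : Prop := ∀ c : ℝ, 0 < c → ∃ O : M2, Oᵀ * O = 1 ∧ L f (O * D c)

lemma rig_of {f : ℝ → ℝ}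
    (h : ∀ c : ℝ, 0 < c → ∃ φ : EuclideanSpace ℝ (Fin 2) ≃ᵢ EuclideanSpace ℝ (Fin 2),
        φ '' Set.range (fun x : ℝ => (WithLp.toLp 2 ![x, c * f x] : EuclideanSpace ℝ (Fin 2)))
          = Set.range (fun x : ℝ => (WithLp.toLp 2 ![x, f x] : EuclideanSpace ℝ (Fin 2)))) :
    Rig f := by
  intro c hc
  obtain ⟨φ, h⟩ := h c hc
  set O := φ.toRealLinearIsometryEquiv
  set e0 : EuclideanSpace ℝ (Fin 2) := WithLp.toLp 2 ![1, 0] with he0
  set e1 : EuclideanSpace ℝ (Fin 2) := WithLp.toLp 2 ![0, 1] with he1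
  have hφ : ∀ x y : ℝ, φ (WithLp.toLp 2 ![x, y]) = x • O e0 + y • O e1 + φ 0 := fun x y => by
    have e : (WithLp.toLp 2 ![x, y] : EuclideanSpace ℝ (Fin 2)) = x • e0 + y • e1 := by
      ext i; fin_cases i <;> simp [he0, he1]
    rw [← map_smul, ← map_smul, ← map_add, ← e, IsometryEquiv.toRealLinearIsometryEquiv_apply]
    simp
  have i00 := O.inner_map_map e0 e0
  have i11 := O.inner_map_map e1 e1
  have i01 := O.inner_map_map e0 e1
  simp only [PiLp.inner_apply, Fin.sum_univ_two, RCLike.inner_apply, conj_trivial] at i00 i11 i01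
  set A : M2 := !![O e0 0, O e1 0; O e0 1, O e1 1] with hA
  have hAA : Aᵀ * A = 1 := by
    simp only [he0, he1] at i00 i11 i01
    simp at i00 i11 i01
    ext i j
    fin_cases i <;> fin_cases j <;>
      simp [hA, Matrix.mul_apply, Fin.sum_univ_two] <;> simp only [he0, he1] <;> linarith
  have hdet : A.det ≠ 0 := by
    intro h0
    have := congrArg Matrix.det hAA
    rw [det_mul, det_transpose, h0] at this
    simp at this
  have key : ∀ x : ℝ, (A * D c) *ᵥ pt f x + ![φ 0 0, φ 0 1] =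
      ![φ (WithLp.toLp 2 ![x, c * f x]) 0, φ (WithLp.toLp 2 ![x, c * f x]) 1] := fun x => by
    rw [hφ]
    ext i; fin_cases i <;>
      simp [hA, D, Matrix.mul_apply, Matrix.mulVec, dotProduct, Fin.sum_univ_two] <;> ring
  refine ⟨A, hAA, ![φ 0 0, φ 0 1], ?_, fun x => ?_, fun x' => ?_⟩
  · rw [det_mul]
    refine mul_ne_zero hdet ?_
    simp [D, hc.ne']
  · obtain ⟨x', hx⟩ : φ (WithLp.toLp 2 ![x, c * f x]) ∈
        Set.range (fun x : ℝ => (WithLp.toLp 2 ![x, f x] : EuclideanSpace ℝ (Fin 2))) :=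
      h ▸ ⟨_, ⟨x, rfl⟩, rfl⟩
    refine ⟨x', ?_⟩
    rw [key, ← hx]
    simp [pt]
  · obtain ⟨_, ⟨x, rfl⟩, hx⟩ : (WithLp.toLp 2 ![x', f x'] : EuclideanSpace ℝ (Fin 2)) ∈
        φ '' Set.range (fun x : ℝ => (WithLp.toLp 2 ![x, c * f x] : EuclideanSpace ℝ (Fin 2))) :=
      h.symm ▸ ⟨x', rfl⟩
    refine ⟨x, ?_⟩
    rw [key, hx]
    simp [pt]

end Pool.Agent.H254.VR
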