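import Pool.Agent.H254.VR.Base

/-!
# Vertically rigid functions: conformal elements, pigeonhole
-/

set_option autoImplicit false
open Matrix Set

namespace Pool.Agent.H254.VR

variable {f : ℝ → ℝ}

/-- the set in the hypothesis of `exp_form` -/
def E (f : ℝ → ℝ) : Set ℝ := {c : ℝ | 0 < c ∧ ∃ u v, ∀ x, f (x + u) = c * f x + v}

lemma D_mul (c d : ℝ) : D c * D d = D (c * d) := by
  simp [D]

lemma D_inv {c : ℝ} (hc : c ≠ 0) : (D c)⁻¹ = D c⁻¹ := by
  apply inv_eq_left_inv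
  rw [D_mul, inv_mul_cancel₀ hc]
  ext i j; fin_cases i <;> fin_cases j <;> rfl

lemma orth_inv {O : M2} (h : Oᵀ * O = 1) : O⁻¹ = Oᵀ := inv_eq_left_inv h

/-- `M_c⁻¹` -/
lemma MD_inv {O : M2} (h : Oᵀ * O = 1) {c : ℝ} (hc : c ≠ 0) : (O * D c)⁻¹ = D c⁻¹ * Oᵀ := by
  rw [Matrix.mul_inv_rev, D_inv hc, orth_inv h]

/-- if uncountably many `c` have the same orthogonal part then `E f` is uncountable -/
lemma same {S : Set ℝ} (hS : ¬ S.Countable) (hp : ∀ c ∈ S, 0 < c) {O : M2} (hO : Oᵀ * O = 1)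
    (h : ∀ c ∈ S, L f (O * D c)) : ¬ (E f).Countable := by
  intro hE
  obtain ⟨c', hc'⟩ : S.Nonempty := by
    by_contra hh
    rw [not_nonempty_iff_eq_empty] at hh
    exact hS (hh ▸ countable_empty)
  refine hS ((hE.image fun κ => κ * c').mono fun c hc => ?_)
  have h1 := (h c' hc').inv.mul (h c hc)
  rw [MD_inv hO (hp _ hc').ne'] at h1
  have e : D c'⁻¹ * Oᵀ * (O * D c) = !![1, 0; 0, c / c'] := by
    rw [Matrix.mul_assoc, ← Matrix.mul_assoc Oᵀ, hO, Matrix.one_mul, D_mul]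
    simp [D, div_eq_inv_mul]
  rw [e] at h1
  obtain ⟨w, hw⟩ := h1
  exact ⟨c / c', ⟨div_pos (hp _ hc) (hp _ hc'), w 0, w 1, hw.diag⟩,
    div_mul_cancel₀ _ (hp _ hc').ne'⟩

lemma orth_entries {O : M2} (h : Oᵀ * O = 1) :
    O 0 0 ^ 2 + O 1 0 ^ 2 = 1 ∧ O 0 1 ^ 2 + O 1 1 ^ 2 = 1 ∧ O 0 0 * O 0 1 + O 1 0 * O 1 1 = 0 := by
  have h00 := congrFun (congrFun h 0) 0
  have h11 := congrFun (congrFun h 1) 1
  have h01 := congrFun (congrFun h 0) 1
  simp [Matrix.mul_apply, Fin.sum_univ_two] at h00 h11 h01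
  exact ⟨by linarith, by linarith, by linarith⟩

/-- finitely many possible orthogonal parts -/
lemma fin_same (hR : Rig f) {T : Set M2} (hT : T.Finite)
    (h : ∀ c : ℝ, 0 < c → ∀ O : M2, Oᵀ * O = 1 → L f (O * D c) → O ∈ T) :
    ¬ (E f).Countable := by
  choose! O hO hL using hR
  have hu : ¬ (Ioi (0 : ℝ)).Countable := by
    intro hc
    have := hc.measure_zero MeasureTheory.volume
    simp at this
  by_contra hE
  apply hu
  have : Ioi (0 : ℝ) ⊆ ⋃ A ∈ T, {c | 0 < c ∧ O c = A} := fun c hc => by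
    simp only [mem_iUnion]
    exact ⟨O c, h c hc _ (hO c hc) (hL c hc), hc, rfl⟩
  refine (hT.countable.biUnion fun A _ => ?_).mono this
  by_contra hA
  by_cases hne : ({c | 0 < c ∧ O c = A}).Nonempty
  · obtain ⟨c, hc, rfl⟩ := hne
    refine same hA (fun c h => h.1) (hO c hc) (fun c' h => ?_) hE
    rw [← h.2]; exact hL c' h.1
  · rw [not_nonempty_iff_eq_empty] at hne
    exact hA (hne ▸ countable_empty)

/-- matrices with entries in `{0, 1, -1}` -/
def T9 : Set M2 := {A | ∀ i j, A i j = 0 ∨ A i j = 1 ∨ A i j = -1}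

lemma T9_fin : T9.Finite := by
  have : T9 ⊆ Set.pi univ (fun _ : Fin 2 => Set.pi univ (fun _ : Fin 2 => ({0, 1, -1} : Set ℝ))) := by
    intro A hA i _ j _
    simpa using hA i j
  refine (Set.Finite.pi fun _ => Set.Finite.pi fun _ => ?_).subset this
  exact Set.toFinite _

lemma mem_T9 {O : M2} (h : Oᵀ * O = 1) (h0 : O 0 0 = 0 ∨ O 0 1 = 0 ∨ O 1 0 = 0) : O ∈ T9 := by
  obtain ⟨h1, h2, h3⟩ := orth_entries h
  have key : ∀ x : ℝ, x ^ 2 = 1 → x = 1 ∨ x = -1 := fun x hx => by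
    rcases mul_eq_zero.1 (show (x - 1) * (x + 1) = 0 by linear_combination hx) with h | h
    · left; linarith
    · right; linarith
  have a : (O 0 0 = 0 ∧ (O 1 0) ^ 2 = 1 ∧ O 1 1 = 0 ∧ (O 0 1) ^ 2 = 1) ∨
      (O 0 1 = 0 ∧ (O 1 1) ^ 2 = 1 ∧ O 1 0 = 0 ∧ (O 0 0) ^ 2 = 1) := by
    rcases h0 with h0 | h0 | h0
    · left
      rw [h0] at h1 h3
      have h4 : O 1 0 ≠ 0 := fun hh => by rw [hh] at h1; norm_num at h1
      have h5 : O 1 1 = 0 := by
        have : O 1 0 * O 1 1 = 0 := by linarith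
        exact (mul_eq_zero.1 this).resolve_left h4
      exact ⟨h0, by linarith, h5, by rw [h5] at h2; linarith⟩
    · right
      rw [h0] at h2 h3
      have h4 : O 1 1 ≠ 0 := fun hh => by rw [hh] at h2; norm_num at h2
      have h5 : O 1 0 = 0 := by
        have : O 1 0 * O 1 1 = 0 := by linarith
        exact (mul_eq_zero.1 this).resolve_right h4
      exact ⟨h0, by linarith, h5, by rw [h5] at h1; linarith⟩
    · right
      rw [h0] at h1 h3
      have h4 : O 0 0 ≠ 0 := fun hh => by rw [hh] at h1; norm_num at h1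
      have h5 : O 0 1 = 0 := by
        have : O 0 0 * O 0 1 = 0 := by linarith
        exact (mul_eq_zero.1 this).resolve_left h4
      exact ⟨h5, by rw [h5] at h2; linarith, h0, by linarith⟩
  rcases a with ⟨a1, a2, a3, a4⟩ | ⟨a1, a2, a3, a4⟩
  · intro i j
    fin_cases i <;> fin_cases j
    · exact Or.inl a1
    · exact Or.inr (key _ a4)
    · exact Or.inr (key _ a2)
    · exact Or.inl a3
  · intro i j
    fin_cases i <;> fin_cases j
    · exact Or.inr (key _ a4)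
    · exact Or.inl a1
    · exact Or.inl a3
    · exact Or.inr (key _ a2)

/-- Step 1: a conformal element with a nonzero rotation part -/
lemma conf (hR : Rig f) {a b : ℝ} (hb : b ≠ 0) (hN : L f !![a, -b; b, a])
    (hne : ∃ d, Ch f d ∧ d 1 ≠ 0) : ∀ M : M2, L f M → M 0 1 = 0 ∨ M 0 0 = 0 := by
  -- conjugates
  have hs : a ^ 2 + b ^ 2 ≠ 0 := by positivity
  have conj1 : ∀ (N : M2), L f N → ∀ c : ℝ, 0 < c → ∀ O : M2, Oᵀ * O = 1 → L f (O * D c) →
      L f (D c⁻¹ * (Oᵀ * N * O) * D c) := fun N hN c hc O hO hL => by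
    have := (hL.inv.mul hN).mul hL
    rw [MD_inv hO hc.ne'] at this
    convert this using 1
    simp only [Matrix.mul_assoc]
  have hinv : (!![a, -b; b, a] : M2)⁻¹ = !![a / (a ^ 2 + b ^ 2), b / (a ^ 2 + b ^ 2);
      -b / (a ^ 2 + b ^ 2), a / (a ^ 2 + b ^ 2)] := by
    apply inv_eq_left_inv
    ext i j
    fin_cases i <;> fin_cases j <;> simp [Matrix.mul_apply, Fin.sum_univ_two] <;> field_simp <;> ring
  have OKO : ∀ O : M2, Oᵀ * O = 1 → ∃ e : ℝ, (e = 1 ∨ e = -1) ∧ ∀ x y : ℝ,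
      Oᵀ * !![x, -y; y, x] * O = !![x, -(e * y); e * y, x] := fun O hO => by
    obtain ⟨h1, h2, h3⟩ := orth_entries hO
    refine ⟨O.det, ?_, fun x y => ?_⟩
    · have := congrArg Matrix.det hO
      rw [det_mul, det_transpose, det_one] at this
      rcases mul_eq_zero.1 (show (O.det - 1) * (O.det + 1) = 0 by linear_combination this) with h | h
      · left; linarith
      · right; linarith
    · rw [det_fin_two]
      ext i j
      fin_cases i <;> fin_cases j <;> simp [Matrix.mul_apply, Fin.sum_univ_two]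
      · linear_combination x * h1
      · linear_combination x * h3
      · linear_combination x * h3
      · linear_combination x * h2
  have DAD : ∀ c x z : ℝ, D c⁻¹ * !![x, -z; z, x] * D c = !![x, -(z * c); z / c, c⁻¹ * x * c] := by
    intro c x z
    ext i j
    fin_cases i <;> fin_cases j <;> simp [D, Matrix.mul_apply, Fin.sum_univ_two]
    rw [div_eq_inv_mul]
  have both : ∀ c : ℝ, 0 < c → ∃ e : ℝ, (e = 1 ∨ e = -1) ∧
      L f !![a, -(e * b * c); e * b / c, c⁻¹ * a * c] ∧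
      ∃ y z, L f !![a / (a ^ 2 + b ^ 2), -(e * (-b / (a ^ 2 + b ^ 2)) * c); y, z] := fun c hc => by
    obtain ⟨O, hO, hL⟩ := hR c hc
    obtain ⟨e, he, h1⟩ := OKO O hO
    have c1 := conj1 _ hN c hc O hO hL
    have c2 := conj1 _ hN.inv c hc O hO hL
    have e2 : (!![a, -b; b, a] : M2)⁻¹ = !![a / (a ^ 2 + b ^ 2), -(-b / (a ^ 2 + b ^ 2));
      -b / (a ^ 2 + b ^ 2), a / (a ^ 2 + b ^ 2)] := by
      rw [hinv]
      congr 4
      ring
    rw [h1, DAD] at c1
    rw [e2, h1, DAD] at c2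
    exact ⟨e, he, c1, _, _, c2⟩
  obtain ⟨d, hd, hd1⟩ := hne
  have hd0 := hd.ne
  have ha : a = 0 := by
    by_contra ha
    set c := |a * d 0| / |b * d 1| with hc
    have p1 : 0 < |a * d 0| := abs_pos.2 (mul_ne_zero ha hd0)
    have p2 : 0 < |b * d 1| := abs_pos.2 (mul_ne_zero hb hd1)
    have hc0 : 0 < c := div_pos p1 p2
    have hc2 : (b * d 1 * c) ^ 2 = (a * d 0) ^ 2 := by
      rw [mul_pow, hc, div_pow, sq_abs, sq_abs]
      have : (b * d 1) ^ 2 ≠ 0 := pow_ne_zero _ (mul_ne_zero hb hd1)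
      field_simp
    obtain ⟨e, he, l1, y, z, l2⟩ := both c hc0
    have n1 := (hd.map l1).ne
    have n2 := (hd.map l2).ne
    simp [Matrix.mulVec, dotProduct, Fin.sum_univ_two] at n1 n2
    have he2 : e ^ 2 = 1 := by rcases he with rfl | rfl <;> norm_num
    have : (a * d 0 + -(e * b * c * d 1)) * (a * d 0 + e * b * c * d 1) = 0 := by
      linear_combination (-(b * d 1 * c) ^ 2) * he2 - hc2
    rcases mul_eq_zero.1 this with h | h
    · exact n1 h
    · apply n2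
      field_simp
      linear_combination h
  subst ha
  have rot : ∀ c : ℝ, 0 < c → ∃ e : ℝ, (e = 1 ∨ e = -1) ∧
      ∀ d, Ch f d → Ch f ![-(e * b * c * d 1), e * b / c * d 0] := fun c hc => by
    obtain ⟨e, he, l1, -⟩ := both c hc
    refine ⟨e, he, fun d hd => ?_⟩
    have := hd.map l1
    convert this using 1
    ext i; fin_cases i <;> simp [Matrix.mulVec, dotProduct, Fin.sum_univ_two]
  intro M hM
  by_contra hh
  rw [not_or] at hh
  obtain ⟨m1, m0⟩ := hh
  have neg : ∀ d, Ch f d → d 1 ≠ 0 → M 0 1 * d 0 / (M 0 0 * d 1) < 0 := fun d hd hd1 => by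
    have hd0 := hd.ne
    have nz : M 0 1 * d 0 / (M 0 0 * d 1) ≠ 0 :=
      div_ne_zero (mul_ne_zero m1 hd0) (mul_ne_zero m0 hd1)
    by_contra hn
    have pos : 0 < M 0 1 * d 0 / (M 0 0 * d 1) := lt_of_le_of_ne (not_lt.1 hn) (Ne.symm nz)
    set c := √(M 0 1 * d 0 / (M 0 0 * d 1)) with hc
    have hc0 : 0 < c := Real.sqrt_pos.2 pos
    have hc2 : c ^ 2 = M 0 1 * d 0 / (M 0 0 * d 1) := Real.sq_sqrt pos.le
    obtain ⟨e, he, hr⟩ := rot c hc0
    have n := ((hr d hd).map hM).ne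
    simp [Matrix.mulVec, dotProduct, Fin.sum_univ_two] at n
    apply n
    rw [eq_div_iff (mul_ne_zero m0 hd1)] at hc2
    field_simp
    linear_combination (-(e * b)) * hc2
  have n1 := neg d hd hd1
  obtain ⟨e, he, hr⟩ := rot 1 one_pos
  have he0 : e ≠ 0 := by rcases he with rfl | rfl <;> norm_num
  have n2 := neg _ (hr d hd) (by simp [he0, hb, hd0])
  simp at n2
  have := mul_pos_of_neg_of_neg n1 n2
  have e3 : M 0 1 * d 0 / (M 0 0 * d 1) * (-(M 0 1 * (e * b * d 1)) / (M 0 0 * (e * b * d 0))) =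
      -(M 0 1 / M 0 0) ^ 2 := by
    field_simp
  rw [e3] at this
  have : 0 ≤ (M 0 1 / M 0 0) ^ 2 := sq_nonneg _
  linarith

end Pool.Agent.H254.VR
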