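import Pool.Agent.H254.VR.Hom

/-!
# Vertically rigid functions: three almost concurrent geodesics
-/

set_option autoImplicit false
open Matrix Set Filter Topology

namespace Pool.Agent.H254.VR

variable {f : ℝ → ℝ}

lemma sq_of {N : M2} {r : ℝ} (h : N * Nᵀ = r • (1 : M2)) :
    (∃ a b, N = !![a, -b; b, a]) ∨ N * N = r • (1 : M2) := by
  have h00 := congrFun (congrFun h 0) 0
  have h11 := congrFun (congrFun h 1) 1
  have h01 := congrFun (congrFun h 0) 1
  simp [Matrix.mul_apply, Fin.sum_univ_two] at h00 h11 h01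
  set a := N 0 0 with ha
  set b := N 0 1 with hb
  set c := N 1 0 with hc
  set d := N 1 1 with hd
  have hN : N = !![a, b; c, d] := by
    ext i j; fin_cases i <;> fin_cases j <;> rfl
  have key : (c = -b ∧ d = a) ∨ (c = b ∧ d = -a) := by
    have e1 : (a ^ 2 + b ^ 2) * (c ^ 2 - b ^ 2) = 0 := by
      linear_combination (a * c - b * d) * h01 + b ^ 2 * h11 - b ^ 2 * h00
    rcases mul_eq_zero.1 e1 with e | e
    · have a0 : a = 0 := by nlinarith [sq_nonneg a, sq_nonneg b]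
      have b0 : b = 0 := by nlinarith [sq_nonneg a, sq_nonneg b]
      have r0 : r = 0 := by rw [← h00, a0, b0]; ring
      have c0 : c = 0 := by nlinarith [sq_nonneg c, sq_nonneg d]
      have d0 : d = 0 := by nlinarith [sq_nonneg c, sq_nonneg d]
      left; constructor
      · rw [b0, c0]; ring
      · rw [a0, d0]
    · have e2 : (c - b) * (c + b) = 0 := by linear_combination e
      rcases mul_eq_zero.1 e2 with e3 | e3
      · have cb : c = b := by linarith
        by_cases hb0 : b = 0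
        · have : (d - a) * (d + a) = 0 := by
            rw [cb, hb0] at h11; rw [hb0] at h00; linear_combination h11 - h00
          rcases mul_eq_zero.1 this with h | h
          · left; exact ⟨by rw [cb, hb0]; ring, by linarith⟩
          · right; exact ⟨cb, by linarith⟩
        · right
          refine ⟨cb, ?_⟩
          have : b * (a + d) = 0 := by rw [cb] at h01; linear_combination h01
          rcases mul_eq_zero.1 this with h | h
          · exact absurd h hb0
          · linarith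
      · have cb : c = -b := by linarith
        by_cases hb0 : b = 0
        · have : (d - a) * (d + a) = 0 := by
            rw [cb, hb0] at h11; rw [hb0] at h00; linear_combination h11 - h00
          rcases mul_eq_zero.1 this with h | h
          · left; exact ⟨cb, by linarith⟩
          · right; exact ⟨by rw [cb, hb0]; ring, by linarith⟩
        · left
          refine ⟨cb, ?_⟩
          have : b * (d - a) = 0 := by rw [cb] at h01; linear_combination h01
          rcases mul_eq_zero.1 this with h | h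
          · exact absurd h hb0
          · linarith
  rcases key with ⟨h1, h2⟩ | ⟨h1, h2⟩
  · left
    exact ⟨a, -b, by rw [hN, h1, h2, neg_neg]⟩
  · right
    rw [hN, h1, h2]
    ext i j
    fin_cases i <;> fin_cases j <;> simp [Matrix.mul_apply, Fin.sum_univ_two]
    · linarith
    · ring
    · ring
    · linarith

/-- crossing elements give homotheties -/
lemma kclaim (hR : Rig f) (hconf : ∀ a b, L f !![a, -b; b, a] → b = 0) {g : M2} (hg : L f g)
    (h1 : 0 < g 0 0 * g 1 1) (h2 : g 0 1 * g 1 0 < 0) :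
    L f ((g 0 0 / g 1 1 * g.det) • (1 : M2)) := by
  have n00 : g 0 0 ≠ 0 := fun h => by rw [h] at h1; simp at h1
  have n11 : g 1 1 ≠ 0 := fun h => by rw [h] at h1; simp at h1
  have n01 : g 0 1 ≠ 0 := fun h => by rw [h] at h2; simp at h2
  have n10 : g 1 0 ≠ 0 := fun h => by rw [h] at h2; simp at h2
  have k1 : 0 < g 0 0 / g 1 1 := by
    have : g 0 0 / g 1 1 = g 0 0 * g 1 1 / g 1 1 ^ 2 := by field_simp
    rw [this]; positivity
  have k2 : 0 < -(g 0 1 / g 1 0) := by
    have : -(g 0 1 / g 1 0) = -(g 0 1 * g 1 0) / g 1 0 ^ 2 := by field_simp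
    rw [this]
    have := neg_pos.2 h2
    positivity
  set c := √(-(g 0 1 / g 1 0) * (g 0 0 / g 1 1)) with hc
  have c0 : 0 < c := Real.sqrt_pos.2 (mul_pos k2 k1)
  have c2 : c ^ 2 = -(g 0 1 / g 1 0) * (g 0 0 / g 1 1) := Real.sq_sqrt (mul_pos k2 k1).le
  set c' := c / (g 0 0 / g 1 1) with hc'
  have c0' : 0 < c' := div_pos c0 k1
  have e1 : c * g 1 1 * c'⁻¹ = g 0 0 := by
    rw [hc']; field_simp
  have e2 : g 0 1 * c'⁻¹ = -(c * g 1 0) := by
    rw [hc', inv_div, ← mul_div_assoc, div_eq_iff c0.ne']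
    have : -(c * g 1 0) * c = -(g 1 0 * c ^ 2) := by ring
    rw [this, c2]; field_simp
  have hK : D c * g * D c'⁻¹ = !![g 0 0, -(c * g 1 0); c * g 1 0, g 0 0] := by
    rw [show D c * g * D c'⁻¹ = D c * !![g 0 0, g 0 1; g 1 0, g 1 1] * D c'⁻¹ by
      rw [← Matrix.eta_fin_two g]]
    ext i j
    fin_cases i <;> fin_cases j <;> simp [D, Matrix.mul_apply, Fin.sum_univ_two]
    · exact e2
    · exact e1
  have hKK : D c * g * D c'⁻¹ * (D c * g * D c'⁻¹)ᵀ = (g 0 0 / g 1 1 * g.det) • (1 : M2) := by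
    rw [hK, det_fin_two]
    have : g 0 0 / g 1 1 * (g 0 0 * g 1 1 - g 0 1 * g 1 0) = g 0 0 ^ 2 + c ^ 2 * g 1 0 ^ 2 := by
      rw [c2]; field_simp; ring
    rw [this]
    ext i j
    fin_cases i <;> fin_cases j <;> simp [Matrix.mul_apply, Fin.sum_univ_two] <;> ring
  obtain ⟨O, hO, hL⟩ := hR c c0
  obtain ⟨O', hO', hL'⟩ := hR c' c0'
  have hN := (hL.mul hg).mul hL'.inv
  rw [MD_inv hO' c0'.ne'] at hN
  set N : M2 := O * D c * g * (D c'⁻¹ * O'ᵀ) with hNdef
  have hOO : O * Oᵀ = 1 := mul_eq_one_comm.1 hO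
  have hNN : N * Nᵀ = (g 0 0 / g 1 1 * g.det) • (1 : M2) := by
    have e : N = O * (D c * g * D c'⁻¹) * O'ᵀ := by
      rw [hNdef]; simp only [Matrix.mul_assoc]
    rw [e, transpose_mul, transpose_mul, transpose_transpose]
    calc O * (D c * g * D c'⁻¹) * O'ᵀ * (O' * ((D c * g * D c'⁻¹)ᵀ * Oᵀ))
        = O * (D c * g * D c'⁻¹) * (O'ᵀ * O') * ((D c * g * D c'⁻¹)ᵀ * Oᵀ) := by
          simp only [Matrix.mul_assoc]
      _ = O * (D c * g * D c'⁻¹ * (D c * g * D c'⁻¹)ᵀ) * Oᵀ := by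
          rw [hO', Matrix.mul_one]; simp only [Matrix.mul_assoc]
      _ = _ := by rw [hKK]; simp [hOO]
  rcases sq_of hNN with ⟨a, b, hab⟩ | h
  · have hb := hconf a b (hab ▸ hN)
    have e : N = a • (1 : M2) := by
      rw [hab, hb]; ext i j; fin_cases i <;> fin_cases j <;> simp
    have e2 : N * N = N * Nᵀ := by rw [e]; simp
    rw [← hNN, ← e2]
    exact hN.mul hN
  · rw [← h]; exact hN.mul hN

lemma rot_form {O O' : M2} (hO : Oᵀ * O = 1) (hO' : O'ᵀ * O' = 1) (hd : O.det = O'.det) :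
    Oᵀ * O' = !![(Oᵀ * O') 0 0, -(Oᵀ * O') 1 0; (Oᵀ * O') 1 0, (Oᵀ * O') 0 0] := by
  have hdet : (Oᵀ * O').det = 1 := by
    have := congrArg Matrix.det hO'
    rw [det_mul, det_transpose, det_one] at this
    rw [det_mul, det_transpose, hd, this]
  have hT : (Oᵀ * O')ᵀ * (Oᵀ * O') = 1 := by
    rw [transpose_mul, transpose_transpose]
    calc O'ᵀ * O * (Oᵀ * O') = O'ᵀ * (O * Oᵀ) * O' := by simp only [Matrix.mul_assoc]
      _ = 1 := by rw [mul_eq_one_comm.1 hO, Matrix.mul_one, hO']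
  obtain ⟨h1, h2, h3⟩ := orth_entries hT
  rw [det_fin_two] at hdet
  set R : M2 := Oᵀ * O'
  have e1 : R 1 1 = R 0 0 := by
    linear_combination (-(R 1 1)) * h1 + R 1 0 * h3 + R 0 0 * hdet
  have e2 : R 0 1 = -R 1 0 := by
    linear_combination (-(R 0 1)) * h1 + R 0 0 * h3 - R 1 0 * hdet
  ext i j
  fin_cases i <;> fin_cases j
  · rfl
  · exact e2
  · rfl
  · exact e1

lemma orth_det {O : M2} (hO : Oᵀ * O = 1) : O.det = 1 ∨ O.det = -1 := by
  have := congrArg Matrix.det hO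
  rw [det_mul, det_transpose, det_one] at this
  rcases mul_eq_zero.1 (show (O.det - 1) * (O.det + 1) = 0 by linear_combination this) with h | h
  · left; linarith
  · right; linarith

/-- a function with countable fibres on an uncountable set: an accumulation point of its graph -/
lemma accum {C : Set ℝ} (hC : ¬ C.Countable) (o : ℝ → Fin 2 → Fin 2 → ℝ) :
    ∃ c0 ∈ C, (𝓝[((fun c => (c, o c)) '' C) \ {(c0, o c0)}] (c0, o c0)).NeBot := by
  set S : Set (ℝ × (Fin 2 → Fin 2 → ℝ)) := (fun c => (c, o c)) '' C with hS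
  by_contra hh
  push Not at hh
  have hd : DiscreteTopology S := by
    rw [discreteTopology_subtype_iff]
    rintro x ⟨c, hc, rfl⟩
    have := hh c hc
    rw [← this, nhdsWithin, nhdsWithin, inf_assoc, inf_principal]
    congr 2
    ext y; simp [and_comm, Set.sdiff_eq]
  have hcount : S.Countable := by
    have : Countable S := TopologicalSpace.separableSpace_iff_countable.1 inferInstance
    exact this
  apply hC
  have : InjOn (fun c => (c, o c)) C := fun a _ b _ h => by simpa using congrArg Prod.fst h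
  exact (Set.MapsTo.countable_of_injOn (mapsTo_image _ _) this hcount)

lemma step5 (hR : Rig f) (hconf : ∀ a b, L f !![a, -b; b, a] → b = 0)
    (hd : ¬ Dense (Sp f : Set ℝ)) : ¬ (E f).Countable := by
  intro hE
  obtain ⟨ε, hε, hεS⟩ : ∃ ε : ℝ, 0 < ε ∧ ∀ t ∈ Sp f, |t| < ε → t = 0 := by
    by_contra hh
    push Not at hh
    refine hd (AddSubgroup.dense_of_not_isolated_zero _ fun ε hε => ?_)
    obtain ⟨t, ht, h1, h2⟩ := hh ε hε
    rcases lt_or_gt_of_ne h2 with h | h
    · exact ⟨-t, (Sp f).neg_mem ht, by linarith, by rwa [abs_of_neg h] at h1⟩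
    · exact ⟨t, ht, h, by rwa [abs_of_pos h] at h1⟩
  have hR' := hR
  choose! O hO hL using hR'
  have hu : ¬ (Ioi (0 : ℝ)).Countable := by
    intro hc
    have := hc.measure_zero MeasureTheory.volume
    simp at this
  obtain ⟨e, hC⟩ : ∃ e : ℝ, ¬ {c : ℝ | 0 < c ∧ (O c).det = e}.Countable := by
    by_contra hh
    push Not at hh
    refine hu (((hh 1).union (hh (-1))).mono fun c hc => ?_)
    rcases orth_det (hO c hc) with h | h
    · exact Or.inl ⟨hc, h⟩
    · exact Or.inr ⟨hc, h⟩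
  set C := {c : ℝ | 0 < c ∧ (O c).det = e} with hCdef
  have fib : ∀ A : M2, {c ∈ C | O c = A}.Countable := fun A => by
    by_contra hA
    obtain ⟨c, hc, rfl⟩ : ({c ∈ C | O c = A}).Nonempty := by
      by_contra hn
      rw [not_nonempty_iff_eq_empty] at hn
      exact hA (hn ▸ countable_empty)
    refine same hA (fun c h => h.1.1) (hO c hc.1) (fun c' h => ?_) hE
    rw [← h.2]; exact hL c' h.1.1
  have avoid : ∀ T : Set M2, T.Finite → ∃ c ∈ C, O c ∉ T := fun T hT => by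
    by_contra hh
    push Not at hh
    refine hC ((hT.countable.biUnion fun A _ => fib A).mono fun c hc => ?_)
    simp only [mem_iUnion]
    exact ⟨O c, hh c hc, hc, rfl⟩
  obtain ⟨c0, hc0, hne⟩ := accum hC (fun c => O c)
  -- the choice of `a`
  have bad1 : ∀ {A B : M2}, Aᵀ * A = 1 → Bᵀ * B = 1 → A.det = B.det → (Aᵀ * B) 1 0 = 0 →
      B = A ∨ B = -A := by
    intro A B hA hB hdet h
    have h1 := rot_form hA hB hdet
    have hT : (Aᵀ * B)ᵀ * (Aᵀ * B) = 1 := by
      rw [transpose_mul, transpose_transpose]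
      calc Bᵀ * A * (Aᵀ * B) = Bᵀ * (A * Aᵀ) * B := by simp only [Matrix.mul_assoc]
        _ = 1 := by rw [mul_eq_one_comm.1 hA, Matrix.mul_one, hB]
    obtain ⟨h2, -, -⟩ := orth_entries hT
    rw [h] at h1 h2
    have hAB : B = A * (Aᵀ * B) := by
      rw [← Matrix.mul_assoc, mul_eq_one_comm.1 hA, Matrix.one_mul]
    have h3 : ((Aᵀ * B) 0 0 - 1) * ((Aᵀ * B) 0 0 + 1) = 0 := by linear_combination h2
    rcases mul_eq_zero.1 h3 with h4 | h4
    · left
      have h5 : (Aᵀ * B) 0 0 = 1 := by linarith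
      rw [h5] at h1
      rw [hAB, h1]
      have : (!![1, -0; 0, 1] : M2) = 1 := by ext i j; fin_cases i <;> fin_cases j <;> simp
      rw [this, Matrix.mul_one]
    · right
      have h5 : (Aᵀ * B) 0 0 = -1 := by linarith
      rw [h5] at h1
      rw [hAB, h1]
      have : (!![-1, -0; 0, -1] : M2) = -1 := by ext i j; fin_cases i <;> fin_cases j <;> simp
      rw [this, Matrix.mul_neg, Matrix.mul_one]
  have bad2 : ∀ {A B : M2}, Aᵀ * A = 1 → Bᵀ * B = 1 → A.det = B.det → (Aᵀ * B) 0 0 = 0 →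
      B = A * !![0, -1; 1, 0] ∨ B = A * !![0, 1; -1, 0] := by
    intro A B hA hB hdet h
    have h1 := rot_form hA hB hdet
    have hT : (Aᵀ * B)ᵀ * (Aᵀ * B) = 1 := by
      rw [transpose_mul, transpose_transpose]
      calc Bᵀ * A * (Aᵀ * B) = Bᵀ * (A * Aᵀ) * B := by simp only [Matrix.mul_assoc]
        _ = 1 := by rw [mul_eq_one_comm.1 hA, Matrix.mul_one, hB]
    obtain ⟨h2, -, -⟩ := orth_entries hT
    rw [h] at h1 h2
    have hAB : B = A * (Aᵀ * B) := by
      rw [← Matrix.mul_assoc, mul_eq_one_comm.1 hA, Matrix.one_mul]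
    have h3 : ((Aᵀ * B) 1 0 - 1) * ((Aᵀ * B) 1 0 + 1) = 0 := by linear_combination h2
    rcases mul_eq_zero.1 h3 with h4 | h4
    · left
      have h5 : (Aᵀ * B) 1 0 = 1 := by linarith
      rw [h5] at h1
      rw [← h1]; exact hAB
    · right
      have h5 : (Aᵀ * B) 1 0 = -1 := by linarith
      rw [h5, neg_neg] at h1
      rw [← h1]; exact hAB
  obtain ⟨a, haC, ha⟩ := avoid {O c0, -O c0} (Set.toFinite _)
  obtain ⟨a', haC', ha'⟩ := avoid {O c0, -O c0, O a, -O a, O a * !![0, -1; 1, 0],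
    O a * !![0, 1; -1, 0]} (Set.toFinite _)
  have a0 := haC.1
  have a0' := haC'.1
  simp only [mem_insert_iff, mem_singleton_iff, not_or] at ha ha'
  obtain ⟨n1, n2, n3, n4, n5, n6⟩ := ha'
  set x1 := ((O a)ᵀ * O c0) 0 0 with hx1
  set y1 := ((O a)ᵀ * O c0) 1 0 with hy1
  have R1 : (O a)ᵀ * O c0 = !![x1, -y1; y1, x1] :=
    rot_form (hO a haC.1) (hO c0 hc0.1) (haC.2.trans hc0.2.symm)
  have y1ne : y1 ≠ 0 := fun h => by
    rcases bad1 (hO a haC.1) (hO c0 hc0.1) (haC.2.trans hc0.2.symm) h with h | h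
    · exact ha.1 h.symm
    · apply ha.2; rw [h, neg_neg]
  set x2 : ℝ → ℝ := fun c => ((O c)ᵀ * O a') 0 0 with hx2
  set y2 : ℝ → ℝ := fun c => ((O c)ᵀ * O a') 1 0 with hy2
  have R2 : ∀ c ∈ C, (O c)ᵀ * O a' = !![x2 c, -y2 c; y2 c, x2 c] := fun c hc =>
    rot_form (hO c hc.1) (hO a' haC'.1) (hc.2.trans haC'.2.symm)
  have y2ne : y2 c0 ≠ 0 := fun h => by
    rcases bad1 (hO c0 hc0.1) (hO a' haC'.1) (hc0.2.trans haC'.2.symm) h with h | h
    · exact n1 h
    · exact n2 h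
  set X := ((O a)ᵀ * O a') 0 0 with hX
  set Y := ((O a)ᵀ * O a') 1 0 with hY
  have Xne : X ≠ 0 := fun h => by
    rcases bad2 (hO a haC.1) (hO a' haC'.1) (haC.2.trans haC'.2.symm) h with h | h
    · exact n5 h
    · exact n6 h
  have Yne : Y ≠ 0 := fun h => by
    rcases bad1 (hO a haC.1) (hO a' haC'.1) (haC.2.trans haC'.2.symm) h with h | h
    · exact n3 h
    · exact n4 h
  have prod : (O a)ᵀ * O a' = !![x1, -y1; y1, x1] * !![x2 c0, -y2 c0; y2 c0, x2 c0] := by
    rw [← R1, ← R2 c0 hc0]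
    calc (O a)ᵀ * O a' = (O a)ᵀ * (O c0 * (O c0)ᵀ) * O a' := by
          rw [mul_eq_one_comm.1 (hO c0 hc0.1), Matrix.mul_one]
      _ = _ := by simp only [Matrix.mul_assoc]
  have hXe : X = x1 * x2 c0 - y1 * y2 c0 := by
    rw [hX, prod]; simp [Matrix.mul_apply, Fin.sum_univ_two]; ring
  have hYe : Y = y1 * x2 c0 + x1 * y2 c0 := by
    rw [hY, prod]; simp [Matrix.mul_apply, Fin.sum_univ_two]
  -- the elements `g`
  set G : ℝ → M2 := fun c => !![x1 * x2 c - c0 / c * (y1 * y2 c),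
      a' * (-(x1 * y2 c) - c0 / c * (y1 * x2 c));
      (y1 * x2 c + c0 / c * (x1 * y2 c)) / a,
      a' / a * (c0 / c * (x1 * x2 c) - y1 * y2 c)] with hG
  have LG : ∀ c ∈ C, L f (G c) := by
    intro c hc
    have h1 := (((hL a haC.1).inv.mul (hL c0 hc0.1)).mul ((hL c hc.1).inv)).mul (hL a' haC'.1)
    rw [MD_inv (hO a haC.1) haC.1.ne', MD_inv (hO c hc.1) hc.1.ne'] at h1
    have e1 : D a⁻¹ * (O a)ᵀ * (O c0 * D c0) * (D c⁻¹ * (O c)ᵀ) * (O a' * D a') =
        D a⁻¹ * ((O a)ᵀ * O c0) * D (c0 * c⁻¹) * ((O c)ᵀ * O a') * D a' := by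
      rw [← D_mul]; simp only [Matrix.mul_assoc]
    rw [e1, R1, R2 c hc] at h1
    convert h1 using 1
    have := haC.1.ne'
    have := hc.1.ne'
    ext i j
    fin_cases i <;> fin_cases j <;> simp [hG, D, Matrix.mul_apply, Fin.sum_univ_two] <;>
      field_simp <;> ring
  have detG : ∀ c ∈ C, (G c).det = c0 / c * (a' / a) := by
    intro c hc
    obtain ⟨u1, -, -⟩ := orth_entries (O := (O a)ᵀ * O c0) (by
      rw [transpose_mul, transpose_transpose]
      calc (O c0)ᵀ * O a * ((O a)ᵀ * O c0) = (O c0)ᵀ * (O a * (O a)ᵀ) * O c0 := by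
            simp only [Matrix.mul_assoc]
        _ = 1 := by rw [mul_eq_one_comm.1 (hO a haC.1), Matrix.mul_one, hO c0 hc0.1])
    obtain ⟨u2, -, -⟩ := orth_entries (O := (O c)ᵀ * O a') (by
      rw [transpose_mul, transpose_transpose]
      calc (O a')ᵀ * O c * ((O c)ᵀ * O a') = (O a')ᵀ * (O c * (O c)ᵀ) * O a' := by
            simp only [Matrix.mul_assoc]
        _ = 1 := by rw [mul_eq_one_comm.1 (hO c hc.1), Matrix.mul_one, hO a' haC'.1])
    have v1 : x1 ^ 2 + y1 ^ 2 = 1 := u1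
    have v2 : x2 c ^ 2 + y2 c ^ 2 = 1 := u2
    have e : (G c).det = c0 / c * (a' / a) * ((x1 ^ 2 + y1 ^ 2) * (x2 c ^ 2 + y2 c ^ 2)) := by
      rw [det_fin_two]; simp only [hG]; simp; ring
    rw [e, v1, v2]; ring
  -- the limit
  set F := 𝓝[((fun c => (c, fun i j => O c i j)) '' C) \ {(c0, fun i j => O c0 i j)}]
    (c0, fun i j => O c0 i j) with hF
  have hFne : F.NeBot := hne
  set z0 : ℝ × (Fin 2 → Fin 2 → ℝ) := (c0, fun i j => O c0 i j) with hz0
  have hc0' : c0 ≠ 0 := hc0.1.ne'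
  set X2 : ℝ × (Fin 2 → Fin 2 → ℝ) → ℝ := fun z => z.2 0 0 * O a' 0 0 + z.2 1 0 * O a' 1 0 with hX2
  set Y2 : ℝ × (Fin 2 → Fin 2 → ℝ) → ℝ := fun z => z.2 0 1 * O a' 0 0 + z.2 1 1 * O a' 1 0 with hY2
  have eX2 : ∀ c, X2 (c, fun i j => O c i j) = x2 c := fun c => by
    simp [hX2, hx2, Matrix.mul_apply, Fin.sum_univ_two]
  have eY2 : ∀ c, Y2 (c, fun i j => O c i j) = y2 c := fun c => by
    simp [hY2, hy2, Matrix.mul_apply, Fin.sum_univ_two]
  have cX2 : ContinuousAt X2 z0 := by fun_prop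
  have cY2 : ContinuousAt Y2 z0 := by fun_prop
  have cκ : ContinuousAt (fun z : ℝ × (Fin 2 → Fin 2 → ℝ) => c0 / z.1) z0 :=
    continuousAt_const.div continuousAt_fst (by simpa [hz0] using hc0')
  set p : ℝ × (Fin 2 → Fin 2 → ℝ) → ℝ := fun z => x1 * X2 z - c0 / z.1 * (y1 * Y2 z) with hp
  set q : ℝ × (Fin 2 → Fin 2 → ℝ) → ℝ := fun z =>
    a' * (-(x1 * Y2 z) - c0 / z.1 * (y1 * X2 z)) with hq
  set r : ℝ × (Fin 2 → Fin 2 → ℝ) → ℝ := fun z =>
    (y1 * X2 z + c0 / z.1 * (x1 * Y2 z)) / a with hr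
  set s : ℝ × (Fin 2 → Fin 2 → ℝ) → ℝ := fun z =>
    a' / a * (c0 / z.1 * (x1 * X2 z) - y1 * Y2 z) with hs
  have cp : ContinuousAt p z0 :=
    (cX2.const_mul _).sub (cκ.mul (cY2.const_mul _))
  have cq : ContinuousAt q z0 :=
    (((cY2.const_mul x1).neg).sub (cκ.mul (cX2.const_mul _))).const_mul _
  have cr : ContinuousAt r z0 :=
    ((cX2.const_mul _).add (cκ.mul (cY2.const_mul _))).div_const _
  have cs : ContinuousAt s z0 :=
    ((cκ.mul (cX2.const_mul _)).sub (cY2.const_mul _)).const_mul _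
  have vX : X2 z0 = x2 c0 := eX2 c0
  have vY : Y2 z0 = y2 c0 := eY2 c0
  have v1 : c0 / z0.1 = 1 := div_self hc0'
  have vp : p z0 = X := by simp only [hp]; rw [vX, vY, v1, hXe]; ring
  have vq : q z0 = -(a' * Y) := by simp only [hq]; rw [vX, vY, v1, hYe]; ring
  have vr : r z0 = Y / a := by simp only [hr]; rw [vX, vY, v1, hYe]; ring
  have vs : s z0 = a' / a * X := by simp only [hs]; rw [vX, vY, v1, hXe]; ring
  have hX0 : 0 < X ^ 2 := by positivity
  have hY0 : 0 < Y ^ 2 := by positivity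
  have a0n := a0.ne'
  have a0n' := a0'.ne'
  have ev1 : ∀ᶠ z in 𝓝 z0, 0 < p z * s z := (cp.mul cs).eventually (lt_mem_nhds (by
    rw [Pi.mul_apply, vp, vs, show X * (a' / a * X) = a' / a * X ^ 2 by ring]
    positivity))
  have ev2 : ∀ᶠ z in 𝓝 z0, q z * r z < 0 := (cq.mul cr).eventually (gt_mem_nhds (by
    rw [Pi.mul_apply, vq, vr, show -(a' * Y) * (Y / a) = -(a' / a * Y ^ 2) by ring]
    have : 0 < a' / a * Y ^ 2 := by positivity
    linarith))
  have vs0 : s z0 ≠ 0 := by rw [vs]; positivity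
  have vΛ : p z0 / s z0 * (c0 / z0.1 * (a' / a)) = 1 := by
    rw [vp, vs, v1]; field_simp
  have cΛ : ContinuousAt (fun z => Real.log (p z / s z * (c0 / z.1 * (a' / a)))) z0 := by
    refine ContinuousAt.log ((cp.div cs vs0).mul (cκ.mul_const _)) ?_
    rw [vΛ]; norm_num
  have ev3 : ∀ᶠ z in 𝓝 z0, |Real.log (p z / s z * (c0 / z.1 * (a' / a)))| < ε :=
    cΛ.abs.eventually (gt_mem_nhds (by
      simp only [vΛ]; rw [Real.log_one, abs_zero]; exact hε))
  have ev4 : ∀ᶠ z in 𝓝 z0, 0 < p z / s z * (c0 / z.1 * (a' / a)) :=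
    ((cp.div cs vs0).mul (cκ.mul_const _)).eventually (lt_mem_nhds (by
      show 0 < p z0 / s z0 * (c0 / z0.1 * (a' / a))
      rw [vΛ]; norm_num))
  have ev5 : ∀ᶠ z in 𝓝 z0, Y2 z ≠ 0 := cY2.eventually_ne (by rw [vY]; exact y2ne)
  have hev : ∀ᶠ z in F, (0 < p z * s z ∧ q z * r z < 0 ∧
      |Real.log (p z / s z * (c0 / z.1 * (a' / a)))| < ε ∧
      0 < p z / s z * (c0 / z.1 * (a' / a)) ∧ Y2 z ≠ 0) ∧
      z ∈ ((fun c => (c, fun i j => O c i j)) '' C) \ {z0} := by
    refine Filter.Eventually.and ?_ eventually_mem_nhdsWithin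
    exact nhdsWithin_le_nhds ((ev1.and (ev2.and (ev3.and (ev4.and ev5)))))
  obtain ⟨z, ⟨h1, h2, h3, h4, h5⟩, ⟨c, hc, rfl⟩, hz⟩ := hev.exists
  have hcc : c ≠ c0 := fun h => hz (by rw [h, hz0]; rfl)
  have hcp := hc.1
  have hcn := hc.1.ne'
  have G00 : G c 0 0 = p (c, fun i j => O c i j) := by
    simp only [hp, eX2, eY2, hG]; rfl
  have G01 : G c 0 1 = q (c, fun i j => O c i j) := by
    simp only [hq, eX2, eY2, hG]; rfl
  have G10 : G c 1 0 = r (c, fun i j => O c i j) := by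
    simp only [hr, eX2, eY2, hG]; rfl
  have G11 : G c 1 1 = s (c, fun i j => O c i j) := by
    simp only [hs, eX2, eY2, hG]; rfl
  have hk := kclaim hR hconf (LG c hc) (by rw [G00, G11]; exact h1) (by rw [G01, G10]; exact h2)
  rw [detG c hc, G00, G11] at hk
  have hmem : Real.log (p (c, fun i j => O c i j) / s (c, fun i j => O c i j) *
      (c0 / c * (a' / a))) ∈ Sp f := by
    rw [mem_Sp, Real.exp_log h4]; exact hk
  have hlog := hεS _ hmem h3
  have hone : p (c, fun i j => O c i j) / s (c, fun i j => O c i j) * (c0 / c * (a' / a)) = 1 := by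
    rw [← Real.exp_log h4]
    simp only at hlog ⊢
    rw [hlog, Real.exp_zero]
  have hsn : s (c, fun i j => O c i j) ≠ 0 := fun h => by rw [h] at h1; simp at h1
  have hfin : p (c, fun i j => O c i j) * (c0 / c * (a' / a)) = s (c, fun i j => O c i j) := by
    rw [div_mul_eq_mul_div, div_eq_one_iff_eq hsn] at hone
    exact hone
  simp only [hp, hs, eX2, eY2] at hfin
  rw [eY2] at h5
  have h6 : ((c0 / c) ^ 2 - 1) * (y1 * y2 c) = 0 := by
    have : a' / a ≠ 0 := by positivity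
    apply mul_left_cancel₀ this
    rw [mul_zero]
    linear_combination -hfin
  rcases mul_eq_zero.1 h6 with h | h
  · have h7 : (c0 / c) ^ 2 = 1 ^ 2 := by linarith
    have hcp0 := hc0.1
    have h8 : c0 / c = 1 :=
      (pow_left_inj₀ (div_pos hc0.1 hc.1).le one_pos.le two_ne_zero).1 h7
    rw [div_eq_one_iff_eq hcn] at h8
    exact hcc h8.symm
  · exact (mul_ne_zero y1ne h5) h

end Pool.Agent.H254.VR
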