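import Pool.Agent.H254.VR.Tr

/-!
# Vertically rigid functions: the case of a dense group of homotheties
-/

set_option autoImplicit false
open Matrix Set Filter
open Pool.Agent.H2.Vr (St lin_of_bdd exp_form)

namespace Pool.Agent.H254.VR

variable {f : ℝ → ℝ} {l : Filter ℝ}

/-- what we need of a measurable function, for a filter -/
structure Good (l : Filter ℝ) (f : ℝ → ℝ) : Prop where
  st : ∀ k : ℝ, St l (fun x => f x - k * x)
  st2 : ∀ x0 y0 s : ℝ, (s = 1 ∨ s = -1) →
    St l (fun t => (f (x0 + s * Real.exp t) - y0) * Real.exp (-t))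
  tr : ∀ (P : ℝ → Prop) (a : ℝ), (∀ᶠ t in l, P t) → ∀ᶠ t in l, P (t + a)
  back : ∀ (P : ℝ → Prop) (x0 s : ℝ), (s = 1 ∨ s = -1) →
    (∀ᶠ t in l, P (x0 + s * Real.exp t)) → ∀ᶠ x in l, 0 < s * (x - x0) → P x

lemma Good.st0 (h : Good l f) : St l f := by simpa using h.st 0

/-- the group of homotheties -/
def Sp (f : ℝ → ℝ) : AddSubgroup ℝ where
  carrier := {t | L f (Real.exp t • (1 : M2))}
  zero_mem' := by simpa using L.one
  add_mem' := by
    intro t t' h h'
    have := L.mul h h'
    simp only [mem_ofPred_eq, Real.exp_add]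
    convert this using 1
    simp [mul_smul, smul_comm (Real.exp t)]
  neg_mem' := by
    intro t h
    have := L.inv h
    simp only [mem_ofPred_eq, Real.exp_neg]
    convert this using 1
    symm
    apply inv_eq_left_inv
    simp [smul_smul]

lemma mem_Sp {t : ℝ} : t ∈ Sp f ↔ L f (Real.exp t • (1 : M2)) := Iff.rfl

/-- all elements fix the centre -/
lemma fix (hW : ∀ w, Pr f 1 w → w = 0) {a : ℝ} (ha : a ≠ 1) {u : V2}
    (h : Pr f (a • (1 : M2)) u) {M : M2} {v : V2} (hM : Pr f M v) :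
    v = (1 - a)⁻¹ • u - M *ᵥ ((1 - a)⁻¹ • u) := by
  have h1 := hM.mul h
  have h2 := h.mul hM
  have e : (a • (1 : M2)) * M = M * (a • (1 : M2)) := by simp
  rw [e] at h2
  have h3 := hW _ (h1.trans h2)
  have ha' : 1 - a ≠ 0 := sub_ne_zero.2 (Ne.symm ha)
  rw [Matrix.smul_mulVec, one_mulVec] at h3
  have h4 : (1 - a) • v = u - M *ᵥ u := by
    rw [sub_smul, one_smul]
    have := sub_eq_zero.1 h3
    have h5 : a • v + u - M *ᵥ u = v := by rw [this]; abel
    rw [← sub_eq_zero] at h5 ⊢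
    rw [← neg_eq_zero, ← h5]; abel
  rw [Matrix.mulVec_smul, ← smul_sub, ← h4, smul_smul, inv_mul_cancel₀ ha', one_smul]

/-- Step 4: a dense group of homotheties -/
lemma step4 [CountableInterFilter l] [l.NeBot] (hG : Good l f) (hR : Rig f)
    (hd : Dense (Sp f : Set ℝ)) : Form l f := by
  by_cases hW : ∀ w, Pr f 1 w → w = 0
  swap
  · push Not at hW
    obtain ⟨w, h, hw⟩ := hW
    exact step3 hG.st0 hG.st hR h hw
  obtain ⟨t0, ht0, h0⟩ := hd.exists_mem_open (isOpen_Ioo (a := (0 : ℝ)) (b := 1))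
    ⟨1 / 2, by constructor <;> norm_num⟩
  obtain ⟨u, hu⟩ := mem_Sp.1 ht0
  have ha : Real.exp t0 ≠ 1 := by
    rw [Ne, Real.exp_eq_one_iff]; exact h0.1.ne'
  set P : V2 := (1 - Real.exp t0)⁻¹ • u with hP
  have hfix : ∀ M, L f M → ∀ x, ∃ x', M *ᵥ (pt f x - P) = pt f x' - P := by
    rintro M ⟨v, hM⟩ x
    obtain ⟨x', hx⟩ := hM.2.1 x
    refine ⟨x', ?_⟩
    rw [fix hW ha hu hM] at hx
    rw [← hx, Matrix.mulVec_sub]; abel
  have hfP : f (P 0) = P 1 := by
    obtain ⟨x', hx⟩ := hfix _ (mem_Sp.1 ht0) (P 0)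
    have e0 := congrFun hx 0
    have e1 := congrFun hx 1
    simp [Matrix.mulVec, dotProduct, Fin.sum_univ_two] at e0 e1
    have e2 : x' = P 0 := by linarith
    rw [e2] at e1
    have : (Real.exp t0 - 1) * (f (P 0) - P 1) = 0 := by linarith
    rcases mul_eq_zero.1 this with h | h
    · exact absurd (by linarith) ha
    · linarith
  set x0 := P 0 with hx0
  set y0 := P 1 with hy0
  set φ : ℝ → ℝ := fun t => f (x0 + t) - y0 with hφ
  have key : ∀ M, L f M → ∀ t, φ (M 0 0 * t + M 0 1 * φ t) = M 1 0 * t + M 1 1 * φ t := by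
    intro M hM t
    obtain ⟨x', hx⟩ := hfix M hM (x0 + t)
    have e0 := congrFun hx 0
    have e1 := congrFun hx 1
    simp [Matrix.mulVec, dotProduct, Fin.sum_univ_two] at e0 e1
    simp only [hφ]
    rw [← hx0, ← hy0] at e0 e1
    have e2 : x0 + (M 0 0 * t + M 0 1 * (f (x0 + t) - y0)) = x' := by linarith
    rw [e2]; linarith
  have hom : ∀ u ∈ Sp f, ∀ t, φ (Real.exp u * t) = Real.exp u * φ t := fun u hu t => by
    have := key _ hu t
    simpa using this
  -- constancy
  have cst : ∀ s : ℝ, (s = 1 ∨ s = -1) → ∃ b, ∀ᶠ t in l, φ (s * Real.exp t) = b * Real.exp t := by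
    intro s hs
    obtain ⟨b, hb⟩ := const_of_dense (hG.st2 x0 y0 s hs) hd fun u hu t => by
      have := hom u hu (s * Real.exp t)
      simp only [hφ] at this
      rw [Real.exp_add, show s * (Real.exp t * Real.exp u) = Real.exp u * (s * Real.exp t) by ring,
        this, neg_add, Real.exp_add, Real.exp_neg u]
      field_simp
    refine ⟨b, hb.mono fun t ht => ?_⟩
    simp only [hφ]
    rw [← ht, mul_assoc, ← Real.exp_add]; simp
  obtain ⟨b1, hb1⟩ := cst 1 (Or.inl rfl)
  obtain ⟨b2, hb2⟩ := cst (-1) (Or.inr rfl)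
  -- lines
  have line : ∀ s b : ℝ, (s = 1 ∨ s = -1) → (∀ᶠ t in l, φ (s * Real.exp t) = b * Real.exp t) →
      ∀ M, L f M → M 1 0 * s + M 1 1 * b = b1 * (M 0 0 * s + M 0 1 * b) ∨
        M 1 0 * s + M 1 1 * b = -b2 * (M 0 0 * s + M 0 1 * b) := by
    intro s b hs hb M hM
    set m1 := M 0 0 * s + M 0 1 * b with hm1
    set m2 := M 1 0 * s + M 1 1 * b with hm2
    have e1 : ∀ᶠ t in l, φ (m1 * Real.exp t) = m2 * Real.exp t := hb.mono fun t ht => by
      have := key M hM (s * Real.exp t)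
      rw [ht] at this
      rw [hm1, hm2]
      convert this using 2 <;> ring
    rcases lt_trichotomy m1 0 with h | h | h
    · right
      have e2 := hG.tr _ (Real.log (-m1)) hb2
      obtain ⟨t, h1, h2⟩ := (e1.and e2).exists
      rw [Real.exp_add, Real.exp_log (by linarith),
        show -1 * (Real.exp t * -m1) = m1 * Real.exp t by ring, h1] at h2
      have := Real.exp_pos t
      have h3 : Real.exp t * (m2 - -b2 * m1) = 0 := by linarith
      rcases mul_eq_zero.1 h3 with h | h <;> linarith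
    · exfalso
      obtain ⟨t, h1, h2⟩ := (e1.and hb).exists
      -- chord from `P` to the point
      have hs0 : s ≠ 0 := by rcases hs with rfl | rfl <;> norm_num
      have hch : Ch f ![s * Real.exp t, b * Real.exp t] := by
        refine ⟨x0 + s * Real.exp t, x0, ?_, ?_⟩
        · have := mul_ne_zero hs0 (Real.exp_pos t).ne'
          intro h; apply this; linarith
        · ext i; fin_cases i
          · simp
          · simp only [hφ] at h2
            simp [hfP, h2]
      have := (hch.map hM).ne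
      simp [Matrix.mulVec, dotProduct, Fin.sum_univ_two] at this
      apply this
      have : (M 0 0 * s + M 0 1 * b) * Real.exp t = 0 := by rw [← hm1, h, zero_mul]
      linarith
    · left
      have e2 := hG.tr _ (Real.log m1) hb1
      obtain ⟨t, h1, h2⟩ := (e1.and e2).exists
      rw [Real.exp_add, Real.exp_log h,
        show 1 * (Real.exp t * m1) = m1 * Real.exp t by ring, h1] at h2
      have := Real.exp_pos t
      have h3 : Real.exp t * (m2 - b1 * m1) = 0 := by linarith
      rcases mul_eq_zero.1 h3 with h | h <;> linarith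
  have heq : b1 = -b2 := by
    by_contra hne
    -- for every `c` an identity
    have cross : ∀ c : ℝ, 0 < c → (c ^ 2 - 1) * (1 - c ^ 2 * (b1 ^ 2 * b2 ^ 2)) = 0 := by
      intro c hc
      obtain ⟨O, hO, hL⟩ := hR c hc
      obtain ⟨o1, o2, o3⟩ := orth_entries hO
      have l1 := line 1 b1 (Or.inl rfl) hb1 _ hL
      have l2 := line (-1) b2 (Or.inr rfl) hb2 _ hL
      have hdet : (O 0 0 * O 1 1 - O 0 1 * O 1 0) ^ 2 = 1 := by
        have := congrArg Matrix.det hO
        rw [det_mul, det_transpose, det_one, det_fin_two] at this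
        linarith
      have d1 : (O * D c) 0 0 = O 0 0 := by simp [D, Matrix.mul_apply, Fin.sum_univ_two]
      have d2 : (O * D c) 0 1 = O 0 1 * c := by simp [D, Matrix.mul_apply, Fin.sum_univ_two]
      have d3 : (O * D c) 1 0 = O 1 0 := by simp [D, Matrix.mul_apply, Fin.sum_univ_two]
      have d4 : (O * D c) 1 1 = O 1 1 * c := by simp [D, Matrix.mul_apply, Fin.sum_univ_two]
      rw [d1, d2, d3, d4] at l1 l2
      set m1 := O 0 0 * 1 + O 0 1 * c * b1 with hm1
      set m2 := O 1 0 * 1 + O 1 1 * c * b1 with hm2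
      set n1 := O 0 0 * -1 + O 0 1 * c * b2 with hn1
      set n2 := O 1 0 * -1 + O 1 1 * c * b2 with hn2
      have q1 : m1 ^ 2 + m2 ^ 2 = 1 + c ^ 2 * b1 ^ 2 := by
        rw [hm1, hm2]; linear_combination o1 + c ^ 2 * b1 ^ 2 * o2 + 2 * c * b1 * o3
      have q2 : n1 ^ 2 + n2 ^ 2 = 1 + c ^ 2 * b2 ^ 2 := by
        rw [hn1, hn2]; linear_combination o1 + c ^ 2 * b2 ^ 2 * o2 - 2 * c * b2 * o3
      have q3 : (m1 * n2 - m2 * n1) ^ 2 = c ^ 2 * (b1 + b2) ^ 2 := by
        have : m1 * n2 - m2 * n1 = (O 0 0 * O 1 1 - O 0 1 * O 1 0) * (c * (b1 + b2)) := by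
          rw [hm1, hm2, hn1, hn2]; ring
        rw [this, mul_pow, hdet, mul_pow]; ring
      have hb : b1 + b2 ≠ 0 := fun h => hne (by linarith)
      have hc2 : c ^ 2 * (b1 + b2) ^ 2 ≠ 0 :=
        mul_ne_zero (pow_ne_zero _ hc.ne') (pow_ne_zero _ hb)
      rcases l1 with l1 | l1 <;> rcases l2 with l2 | l2
      · exfalso; apply hc2; rw [← q3, l1, l2]; ring
      · have e : (m1 * n1) ^ 2 = c ^ 2 := by
          have : (m1 * n1) ^ 2 * (b1 + b2) ^ 2 = c ^ 2 * (b1 + b2) ^ 2 := by
            rw [← q3, l1, l2]; ring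
          exact mul_right_cancel₀ (pow_ne_zero _ hb) this
        have : (m1 * n1) ^ 2 * ((1 + b1 ^ 2) * (1 + b2 ^ 2)) =
            (1 + c ^ 2 * b1 ^ 2) * (1 + c ^ 2 * b2 ^ 2) := by
          rw [← q1, ← q2, l1, l2]; ring
        rw [e] at this
        linear_combination this
      · have e : (m1 * n1) ^ 2 = c ^ 2 := by
          have : (m1 * n1) ^ 2 * (b1 + b2) ^ 2 = c ^ 2 * (b1 + b2) ^ 2 := by
            rw [← q3, l1, l2]; ring
          exact mul_right_cancel₀ (pow_ne_zero _ hb) this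
        have : (m1 * n1) ^ 2 * ((1 + b1 ^ 2) * (1 + b2 ^ 2)) =
            (1 + c ^ 2 * b1 ^ 2) * (1 + c ^ 2 * b2 ^ 2) := by
          rw [← q1, ← q2, l1, l2]; ring
        rw [e] at this
        linear_combination this
      · exfalso; apply hc2; rw [← q3, l1, l2]; ring
    have c2 := cross 2 two_pos
    have c3 := cross 3 three_pos
    norm_num at c2 c3
    linarith
  -- conclusion
  have f1 := hG.back (fun x => φ (x - x0) = b1 * (x - x0)) x0 1 (Or.inl rfl)
    (hb1.mono fun t ht => by simpa using ht)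
  have f2 := hG.back (fun x => φ (x - x0) = b1 * (x - x0)) x0 (-1) (Or.inr rfl)
    (hb2.mono fun t ht => by
      simp only [add_sub_cancel_left]
      rw [ht, heq]; ring)
  refine ⟨y0 - b1 * x0, b1, 0, Or.inl ?_⟩
  filter_upwards [f1, f2] with x h1 h2
  have hx : φ (x - x0) = b1 * (x - x0) := by
    rcases lt_trichotomy x x0 with h | h | h
    · exact h2 (by linarith)
    · rw [h]; simp [hφ, hfP]
    · exact h1 (by linarith)
  simp only [hφ, add_sub_cancel] at hx
  linarith

end Pool.Agent.H254.VR
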