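import Pool.Agent.H254.VR.Fin

/-!
# Vertically rigid functions: the main theorem
-/

set_option autoImplicit false
open Matrix Set Filter Topology MeasureTheory
open Pool.Agent.H2.Vr (St St_ae St_res exp_form)

namespace Pool.Agent.H254.VR

variable {f : ℝ → ℝ} {l : Filter ℝ}

/-- the main theorem, for an abstract filter -/
theorem main [CountableInterFilter l] [l.NeBot] (hG : Good l f) (hR : Rig f) : Form l f := by
  by_cases hne : ∃ d, Ch f d ∧ d 1 ≠ 0
  swap
  · push Not at hne
    refine ⟨f 0, 0, 0, Or.inl (Eventually.of_forall fun x => ?_)⟩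
    by_cases hx : x = 0
    · rw [hx]; ring
    · have := hne _ ⟨x, 0, hx, rfl⟩
      simp at this
      linarith
  by_cases hconf : ∀ a b, L f !![a, -b; b, a] → b = 0
  · by_cases hd : Dense (Sp f : Set ℝ)
    · exact step4 hG hR hd
    · obtain ⟨a, b, k, h⟩ := exp_form hG.st0 (step5 hR hconf hd)
      exact ⟨a, b, k, Or.inr h⟩
  · push Not at hconf
    obtain ⟨a, b, hL, hb⟩ := hconf
    have hE : ¬ (E f).Countable := by
      refine fin_same hR T9_fin fun c hc O hO hL' => mem_T9 hO ?_
      rcases conf hR hb hL hne _ hL' with h | h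
      · right; left
        simp [D, Matrix.mul_apply, Fin.sum_univ_two] at h
        exact h.resolve_right hc.ne'
      · left
        simpa [D, Matrix.mul_apply, Fin.sum_univ_two] using h
    obtain ⟨a, b, k, h⟩ := exp_form hG.st0 hE
    exact ⟨a, b, k, Or.inr h⟩

/-- the map `t ↦ x0 + s e^t` -/
noncomputable def gm (x0 s t : ℝ) : ℝ := x0 + s * Real.exp t

lemma gm_cont (x0 s : ℝ) : Continuous (gm x0 s) := by unfold gm; fun_prop

lemma gm_log {x0 s x : ℝ} (hs : s = 1 ∨ s = -1) (hx : 0 < s * (x - x0)) :
    gm x0 s (Real.log (s * (x - x0))) = x := by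
  unfold gm
  rw [Real.exp_log hx]
  rcases hs with rfl | rfl <;> ring

lemma log_gm {x0 s t : ℝ} (hs : s = 1 ∨ s = -1) : Real.log (s * (gm x0 s t - x0)) = t := by
  unfold gm
  have : s * (x0 + s * Real.exp t - x0) = Real.exp t := by
    rcases hs with rfl | rfl <;> ring
  rw [this, Real.log_exp]

lemma gm_qmp {x0 s : ℝ} (hs : s = 1 ∨ s = -1) :
    Measure.QuasiMeasurePreserving (gm x0 s) volume volume := by
  refine ⟨(gm_cont x0 s).measurable, Measure.AbsolutelyContinuous.mk fun N hN h0 => ?_⟩
  rw [Measure.map_apply (gm_cont x0 s).measurable hN]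
  have hsub : gm x0 s ⁻¹' N ⊆
      (fun x => Real.log (s * (x - x0))) '' (N ∩ {x | 0 < s * (x - x0)}) := by
    intro t ht
    refine ⟨gm x0 s t, ⟨ht, ?_⟩, log_gm hs⟩
    simp only [mem_ofPred_eq, gm]
    have : s * (x0 + s * Real.exp t - x0) = Real.exp t := by
      rcases hs with rfl | rfl <;> ring
    rw [this]; exact Real.exp_pos t
  refine measure_mono_null hsub ?_
  refine addHaar_image_eq_zero_of_differentiableOn_of_addHaar_eq_zero volume ?_
    (measure_mono_null inter_subset_left h0)
  intro x hx
  have hx2 : s * (x - x0) ≠ 0 := ne_of_gt hx.2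
  have hd : DifferentiableAt ℝ (fun x : ℝ => s * (x - x0)) x := by fun_prop
  exact (hd.log hx2).differentiableWithinAt

theorem good_ae (hf : AEMeasurable f volume) : Good (ae volume) f where
  st k := St_ae (hf.sub (by fun_prop))
  st2 x0 y0 s hs := St_ae (by
    have h1 : AEMeasurable (fun t => f (gm x0 s t)) volume :=
      hf.comp_quasiMeasurePreserving (gm_qmp hs)
    exact (h1.sub aemeasurable_const).mul (by fun_prop))
  tr P a h := by
    exact (measurePreserving_add_right volume a).quasiMeasurePreserving.tendsto_ae.eventually h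
  back P x0 s hs h := by
    rw [ae_iff] at h ⊢
    have hsub : {x | ¬ (0 < s * (x - x0) → P x)} ⊆
        gm x0 s '' {t | ¬ P (x0 + s * Real.exp t)} := by
      intro x hx
      simp only [mem_ofPred_eq, Classical.not_imp] at hx
      refine ⟨Real.log (s * (x - x0)), ?_, gm_log hs hx.1⟩
      simp only [mem_ofPred_eq]
      have := gm_log hs hx.1
      unfold gm at this
      rw [this]; exact hx.2
    refine measure_mono_null hsub ?_
    refine addHaar_image_eq_zero_of_differentiableOn_of_addHaar_eq_zero volume ?_ h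
    intro x _
    unfold gm
    exact DifferentiableAt.differentiableWithinAt (by fun_prop)

lemma gm_open {x0 s : ℝ} (hs : s = 1 ∨ s = -1) : IsOpenMap (gm x0 s) := by
  have h1 : IsOpenMap (fun x : ℝ => x0 + s * x) := by
    have hs0 : s ≠ 0 := by rcases hs with rfl | rfl <;> norm_num
    have : (fun x : ℝ => x0 + s * x) = (fun y => x0 + y) ∘ (fun x => s * x) := rfl
    rw [this]
    exact (isOpenMap_add_left x0).comp (Homeomorph.mulLeft₀ s hs0).isOpenMap
  have h2 : IsOpenMap Real.exp := Real.isOpenEmbedding_exp.isOpenMap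
  exact h1.comp h2

theorem good_res (hf : ∀ U : Set ℝ, IsOpen U → BaireMeasurableSet (f ⁻¹' U)) :
    Good (residual ℝ) f where
  st k := St_res fun U hU => by
    have hm : @Measurable ℝ ℝ (eventuallyMeasurableSpace (borel ℝ) (residual ℝ)) _ f :=
      @measurable_of_isOpen ℝ ℝ _ _ _ (eventuallyMeasurableSpace (borel ℝ) (residual ℝ)) f hf
    have hi : @Measurable ℝ ℝ (eventuallyMeasurableSpace (borel ℝ) (residual ℝ)) _
        (fun x => k * x) := by
      refine Measurable.mono (show Measurable fun x : ℝ => k * x by fun_prop) ?_ le_rfl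
      exact (BorelSpace.measurable_eq (α := ℝ)).le.trans le_eventuallyMeasurableSpace
    exact (hm.sub hi) hU.measurableSet
  st2 x0 y0 s hs := St_res fun U hU => by
    have hf' : ∀ U : Set ℝ, IsOpen U → BaireMeasurableSet ((fun t => f (gm x0 s t)) ⁻¹' U) :=
      fun U hU => (hf U hU).preimage (gm_cont x0 s) (gm_open hs)
    have hm : @Measurable ℝ ℝ (eventuallyMeasurableSpace (borel ℝ) (residual ℝ)) _
        (fun t => f (gm x0 s t)) :=
      @measurable_of_isOpen ℝ ℝ _ _ _ (eventuallyMeasurableSpace (borel ℝ) (residual ℝ)) _ hf'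
    have hi : @Measurable ℝ ℝ (eventuallyMeasurableSpace (borel ℝ) (residual ℝ)) _
        (fun x => Real.exp (-x)) := by
      refine Measurable.mono (show Measurable fun x : ℝ => Real.exp (-x) by fun_prop) ?_ le_rfl
      exact (BorelSpace.measurable_eq (α := ℝ)).le.trans le_eventuallyMeasurableSpace
    exact ((hm.sub_const y0).mul hi) hU.measurableSet
  tr P a h := (tendsto_residual_of_isOpenMap (continuous_add_const a)
    (isOpenMap_add_right a)).eventually h
  back P x0 s hs h := by
    obtain ⟨S, hS1, hS2, hS3, hS4⟩ := mem_residual_iff.1 h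
    have key : ∀ V ∈ S, (gm x0 s '' V ∪ {x | s * (x - x0) < 0}) ∈ residual ℝ := by
      intro V hV
      have ho : IsOpen (gm x0 s '' V ∪ {x | s * (x - x0) < 0}) :=
        ((gm_open hs) V (hS1 V hV)).union (isOpen_lt (by fun_prop) continuous_const)
      refine residual_of_dense_open ho ?_
      rw [dense_iff_inter_open]
      intro U hU hne
      obtain ⟨x, hxU, hx⟩ := (dense_compl_singleton x0).inter_open_nonempty U hU hne
      have hxn : s * (x - x0) ≠ 0 := by
        have : x - x0 ≠ 0 := sub_ne_zero.2 hx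
        have hs0 : s ≠ 0 := by rcases hs with rfl | rfl <;> norm_num
        exact mul_ne_zero hs0 this
      rcases lt_or_gt_of_ne hxn with h1 | h1
      · exact ⟨x, hxU, Or.inr h1⟩
      · obtain ⟨t, ht, htV⟩ := (hS2 V hV).inter_open_nonempty _ (hU.preimage (gm_cont x0 s))
          ⟨Real.log (s * (x - x0)), by rw [mem_preimage, gm_log hs h1]; exact hxU⟩
        exact ⟨gm x0 s t, ht, Or.inl ⟨t, htV, rfl⟩⟩
    have h2 := (countable_bInter_mem hS3 (l := residual ℝ)
      (s := fun V _ => gm x0 s '' V ∪ {x | s * (x - x0) < 0})).2 key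
    refine mem_of_superset h2 fun x hx hpos => ?_
    have h3 : Real.log (s * (x - x0)) ∈ ⋂₀ S := by
      intro V hV
      have := mem_iInter₂.1 hx V hV
      rcases this with ⟨t, ht, hte⟩ | h
      · rw [← hte, log_gm hs]; exact ht
      · simp only [mem_ofPred_eq] at h; linarith
    have h4 := hS4 h3
    simp only [mem_ofPred_eq] at h4
    have h5 := gm_log hs hpos
    unfold gm at h5
    rwa [h5] at h4

end Pool.Agent.H254.VR
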