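import Pool.Agent.H254.VR.Conf
import Pool.Graph.R_pool_sql_team_ae5b0c61.H2.VrE

/-!
# Vertically rigid functions: translations and homotheties
-/

set_option autoImplicit false
open Matrix Set Filter
open Pool.Agent.H2.Vr (St lin_of_bdd exp_form)

namespace Pool.Agent.H254.VR

variable {f : ℝ → ℝ} {l : Filter ℝ}

/-- the desired forms -/
def Form (l : Filter ℝ) (f : ℝ → ℝ) : Prop :=
  ∃ a b k : ℝ, (∀ᶠ x in l, f x = a + b * x) ∨ (∀ᶠ x in l, f x = a + b * Real.exp (k * x))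

/-- a function with many periods is constant -/
lemma const_of_dense [CountableInterFilter l] {F : ℝ → ℝ} (hS : St l F) {U : AddSubgroup ℝ}
    (hU : Dense (U : Set ℝ)) (h : ∀ u ∈ U, ∀ x, F (x + u) = F x) : ∃ b, ∀ᶠ x in l, F x = b := by
  obtain ⟨b, hb⟩ := exists_eventuallyEq_const_of_forall_separating (l := l)
    (f := F) MeasurableSet fun V hV => by
    by_contra hh
    rw [not_or, not_eventually, not_eventually] at hh
    have m1 : MeasurableSet {w : ℝ × ℝ | w.2 ∈ V} := measurable_snd hV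
    obtain ⟨t, δ, hδ, ht⟩ := hS _ _ m1 m1.compl (hh.2.mono fun x hx => not_not.1 hx) hh.1
    obtain ⟨u, hu, h1⟩ := hU.exists_mem_open (isOpen_Ioo (a := t - δ) (b := t + δ))
      ⟨t, by constructor <;> linarith⟩
    obtain ⟨x, h2, h3⟩ := ht u (by rw [abs_lt]; constructor <;> linarith [h1.1, h1.2])
    apply h2
    simp only [mem_ofPred_eq] at h3 ⊢
    rwa [h u hu] at h3
  exact ⟨b, hb⟩

/-- a function with a dense group of translations of its graph is affine -/
lemma lin_form [CountableInterFilter l] [l.NeBot] (hS : St l f)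
    (hS' : ∀ k : ℝ, St l (fun x => f x - k * x)) {U : AddSubgroup ℝ}
    (hU : Dense (U : Set ℝ)) (h : ∀ u ∈ U, ∃ v, ∀ x, f (x + u) = f x + v) :
    ∃ a k : ℝ, ∀ᶠ x in l, f x = a + k * x := by
  have h' : ∀ u : U, ∀ x, f (x + u) = f x + (f (0 + u) - f 0) := fun u x => by
    obtain ⟨v, hv⟩ := h u u.2
    rw [hv, hv 0]; ring
  let φ : U →+ ℝ := AddMonoidHom.mk' (fun u => f (0 + u) - f 0) (by
    intro u u'
    have h1 := h' u (u')
    have h2 := h' u' 0
    simp only [AddSubgroup.coe_add, zero_add] at h1 h2 ⊢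
    rw [add_comm (u : ℝ), h1]
    ring)
  have hφ : ∀ u : U, ∀ x, f (x + u) = f x + φ u := h'
  obtain ⟨n, hn⟩ : ∃ n : ℕ, ∃ᶠ x in l, (x, f x) ∈ {w : ℝ × ℝ | |w.2| ≤ n} := by
    by_contra hh
    simp only [not_exists, not_frequently] at hh
    obtain ⟨x, hx⟩ := (eventually_countable_forall.2 hh).exists
    obtain ⟨n, hn⟩ := exists_nat_ge |f x|
    exact hx n hn
  have hm : MeasurableSet {w : ℝ × ℝ | |w.2| ≤ n} :=
    measurableSet_le (f := fun w : ℝ × ℝ => |w.2|) (by fun_prop) measurable_const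
  obtain ⟨t, δ, hδ, ht⟩ := hS _ _ hm hm hn hn
  obtain ⟨k, hk⟩ := lin_of_bdd hU φ (M := 2 * n) hδ fun u hu => by
    obtain ⟨x, h2, h3⟩ := ht u hu
    simp only [mem_ofPred_eq] at h2 h3
    rw [hφ] at h3
    rw [abs_le] at h2 h3 ⊢
    constructor <;> linarith [h2.1, h2.2, h3.1, h3.2]
  obtain ⟨b, hb⟩ := const_of_dense (hS' k) hU fun u hu x => by
    have h1 := hφ ⟨u, hu⟩ x
    have h2 := hk ⟨u, hu⟩
    simp only at h1 h2
    rw [h1, h2]; ring
  exact ⟨b, k, hb.mono fun x hx => by linarith⟩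

/-- the group of translations: first coordinates -/
def Tx (f : ℝ → ℝ) : AddSubgroup ℝ where
  carrier := {u | ∃ w, Pr f 1 w ∧ w 0 = u}
  zero_mem' := ⟨0, Pr.one, rfl⟩
  add_mem' := by
    rintro u u' ⟨w, h, rfl⟩ ⟨w', h', rfl⟩
    exact ⟨_, h.add h', rfl⟩
  neg_mem' := by
    rintro u ⟨w, h, rfl⟩
    exact ⟨_, h.neg, rfl⟩

lemma tx_dense (hR : Rig f) {w : V2} (h : Pr f 1 w) (h1 : w 1 ≠ 0) :
    Dense (Tx f : Set ℝ) := by
  refine (Tx f).dense_or_cyclic.resolve_right fun ⟨g, hg⟩ => ?_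
  have hc : (Tx f : Set ℝ).Countable := by
    rw [hg, ← AddSubgroup.zmultiples_eq_closure]; exact countable_range _
  choose! O hO hL using hR
  have hu : ¬ (Ioi (0 : ℝ)).Countable := by
    intro hc
    have := hc.measure_zero MeasureTheory.volume
    simp at this
  apply hu
  have hP : ∀ c : ℝ, 0 < c → Pr f 1 ((O c * D c) *ᵥ w) := fun c hc => Pr.conj (hL c hc) h
  have inj : InjOn (fun c => ((O c * D c) *ᵥ w) 0) (Ioi 0) := by
    intro c hc c' hc' e
    simp only at e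
    have e1 := Pr.tr_ext (hP c hc) (hP c' hc') e
    have nrm : ∀ c, 0 < c → ((O c * D c) *ᵥ w) 0 ^ 2 + ((O c * D c) *ᵥ w) 1 ^ 2 =
        w 0 ^ 2 + c ^ 2 * w 1 ^ 2 := fun c hc => by
      obtain ⟨o1, o2, o3⟩ := orth_entries (hO c hc)
      simp [Matrix.mulVec, Matrix.mul_apply, dotProduct, Fin.sum_univ_two, D]
      linear_combination w 0 ^ 2 * o1 + c ^ 2 * w 1 ^ 2 * o2 + 2 * c * w 0 * w 1 * o3
    have n1 := nrm c hc
    have n2 := nrm c' hc'
    rw [e1, n2] at n1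
    have h3 : (c' ^ 2 - c ^ 2) * w 1 ^ 2 = 0 := by linarith
    have h4 : c' ^ 2 = c ^ 2 := by
      rcases mul_eq_zero.1 h3 with h | h
      · linarith
      · exact absurd (pow_eq_zero_iff (two_ne_zero) |>.1 h) h1
    exact ((pow_left_inj₀ (mem_Ioi.1 hc').le (mem_Ioi.1 hc).le two_ne_zero).1 h4).symm
  refine Set.MapsTo.countable_of_injOn (t := (Tx f : Set ℝ)) (f := fun c => ((O c * D c) *ᵥ w) 0)
    (fun c hc => ?_) inj hc
  exact ⟨_, hP c hc, rfl⟩

/-- Step 3: a nonzero translation -/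
lemma step3 [CountableInterFilter l] [l.NeBot] (hS : St l f)
    (hS' : ∀ k : ℝ, St l (fun x => f x - k * x)) (hR : Rig f) {w : V2} (h : Pr f 1 w)
    (hw : w ≠ 0) : Form l f := by
  by_cases hex : ∃ w, Pr f 1 w ∧ w 1 ≠ 0
  · obtain ⟨w, h, h1⟩ := hex
    obtain ⟨a, k, hak⟩ := lin_form hS hS' (tx_dense hR h h1) (by
      rintro u ⟨w, h, rfl⟩
      exact ⟨w 1, h.tr⟩)
    exact ⟨a, k, 0, Or.inl hak⟩
  · push Not at hex
    have w0 : w 0 ≠ 0 := fun h0 => hw (by
      ext i; fin_cases i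
      · exact h0
      · exact hex w h)
    have hE : ¬ (E f).Countable := by
      refine fin_same hR T9_fin fun c hc O hO hL => mem_T9 hO (Or.inr (Or.inr ?_))
      have := hex _ (Pr.conj hL h)
      simp [Matrix.mulVec, Matrix.mul_apply, dotProduct, Fin.sum_univ_two, D, hex w h] at this
      exact this.resolve_right w0
    obtain ⟨a, b, k, h⟩ := exp_form hS hE
    exact ⟨a, b, k, Or.inr h⟩

end Pool.Agent.H254.VR
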